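import Mathlib

namespace Pool.Agent.P.MP_8ee1cf_lc

/-- An indexed grammar with nonterminals, terminals and index symbols named by natural numbers
(three separate copies): the start symbol, the rules `A → α` as pairs `(A, α)`, the rules
`A → B f` as triples `(A, B, f)`, and the rules `A f → α` as triples `(A, f, α)`.
In a right-hand side `Sum.inl t` is the terminal `t` and `Sum.inr B` the nonterminal `B`. -/
abbrev Grammar : Type :=
  ℕ × List (ℕ × List (ℕ ⊕ ℕ)) × List (ℕ × ℕ × ℕ) × List (ℕ × ℕ × List (ℕ ⊕ ℕ))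

/-- Sentential forms: words over terminals and nonterminals carrying an index stack. -/
abbrev Form : Type := List (ℕ ⊕ (ℕ × List ℕ))

/-- Give the stack `σ` to every nonterminal of `α`. -/
def attach (σ : List ℕ) (α : List (ℕ ⊕ ℕ)) : Form :=
  α.map (Sum.map id fun B => (B, σ))

/-- One derivation step. -/
inductive Step (G : Grammar) : Form → Form → Prop
  | plain (u v : Form) (A : ℕ) (σ : List ℕ) (α : List (ℕ ⊕ ℕ)) : (A, α) ∈ G.2.1 →
      Step G (u ++ [Sum.inr (A, σ)] ++ v) (u ++ attach σ α ++ v)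
  | push (u v : Form) (A B f : ℕ) (σ : List ℕ) : (A, B, f) ∈ G.2.2.1 →
      Step G (u ++ [Sum.inr (A, σ)] ++ v) (u ++ [Sum.inr (B, f :: σ)] ++ v)
  | pop (u v : Form) (A f : ℕ) (σ : List ℕ) (α : List (ℕ ⊕ ℕ)) : (A, f, α) ∈ G.2.2.2 →
      Step G (u ++ [Sum.inr (A, f :: σ)] ++ v) (u ++ attach σ α ++ v)

/-- The language generated: terminal words derivable from the start symbol with empty stack. -/
def language (G : Grammar) : Set (List ℕ) :=
  {w | Relation.ReflTransGen (Step G) [Sum.inr (G.1, [])] (w.map Sum.inl)}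

/-- The finite list `F` of words of `L` is a test set for `L`. -/
def IsTestSet (F : List (List ℕ)) (L : Set (List ℕ)) : Prop :=
  (∀ w ∈ F, w ∈ L) ∧
    ∀ (Δ : Type) (g h : FreeMonoid ℕ →* FreeMonoid Δ),
      (∀ w ∈ L, g (FreeMonoid.ofList w) = h (FreeMonoid.ofList w)) ↔
        (∀ w ∈ F, g (FreeMonoid.ofList w) = h (FreeMonoid.ofList w))

end Pool.Agent.P.MP_8ee1cf_lc
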