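import Mathlib

/-! Polynomials as lists of monomials, and certificates for ideal membership. -/

namespace Pool.Agent.P.MP_8ee1cf_lc

section
variable {V : Type} {K : Type} [CommRing K]

/-- Value of a list of monomials. -/
def evalP (ν : V → K) (p : List (List V)) : K := (p.map fun m => (m.map ν).prod).sum

@[simp] lemma evalP_nil (ν : V → K) : evalP ν [] = 0 := rfl

@[simp] lemma evalP_cons (ν : V → K) (m : List V) (p : List (List V)) :
    evalP ν (m :: p) = (m.map ν).prod + evalP ν p := by simp [evalP]

@[simp] lemma evalP_append (ν : V → K) (p q : List (List V)) :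
    evalP ν (p ++ q) = evalP ν p + evalP ν q := by simp [evalP]

lemma evalP_map_append (ν : V → K) (m : List V) (p : List (List V)) :
    evalP ν (p.map fun m' => m ++ m') = (m.map ν).prod * evalP ν p := by
  induction p with
  | nil => simp
  | cons a p ih => simp [ih, mul_add]

lemma evalP_flatMap {β : Type} (ν : V → K) (l : List β) (f : β → List (List V)) :
    evalP ν (l.flatMap f) = (l.map fun b => evalP ν (f b)).sum := by
  induction l with
  | nil => simp
  | cons a l ih => simp [ih]

lemma map_evalP {K' : Type} [CommRing K'] (φ : K →+* K') (ν : V → K) (p : List (List V)) :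
    φ (evalP ν p) = evalP (fun v => φ (ν v)) p := by
  induction p with
  | nil => simp
  | cons a l ih => simp [ih, map_list_prod, Function.comp_def]

/-- The polynomial of a list of monomials. -/
noncomputable def toMv (p : List (List V)) : MvPolynomial V ℤ := evalP MvPolynomial.X p

lemma aeval_toMv (ν : V → K) (p : List (List V)) :
    MvPolynomial.aeval ν (toMv p) = evalP ν p := by
  have := map_evalP (MvPolynomial.aeval ν : MvPolynomial V ℤ →ₐ[ℤ] K).toRingHom MvPolynomial.X p
  simpa [toMv] using this

/-- A combination of polynomials with monomial coefficients. -/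
def comb (l : List (List V × List (List V))) : List (List V) :=
  l.flatMap fun c => c.2.map fun m' => c.1 ++ m'

variable [DecidableEq V]

/-- Two monomials are equal up to order. -/
def MonEq (m m' : List V) : Prop := ∀ x ∈ m ++ m', m.count x = m'.count x

instance (m m' : List V) : Decidable (MonEq m m') := by unfold MonEq; infer_instance

lemma monEq_iff (m m' : List V) : MonEq m m' ↔ m.Perm m' := by
  rw [List.perm_iff_count]
  constructor
  · intro h x
    by_cases hx : x ∈ m ++ m'
    · exact h x hx
    · rw [List.mem_append, not_or] at hx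
      rw [List.count_eq_zero.2 hx.1, List.count_eq_zero.2 hx.2]
  · intro h x _
    exact h x

/-- Two lists of monomials give the same polynomial. -/
def PolyEq (p q : List (List V)) : Prop :=
  ∀ m ∈ p ++ q, (p.filter fun m' => MonEq m' m).length = (q.filter fun m' => MonEq m' m).length

instance (p q : List (List V)) : Decidable (PolyEq p q) := by unfold PolyEq; infer_instance

lemma prod_X_eq (m : List V) :
    (m.map (MvPolynomial.X : V → MvPolynomial V ℤ)).prod =
      MvPolynomial.monomial (Multiset.toFinsupp (m : Multiset V)) 1 := by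
  induction m with
  | nil => simp
  | cons a m ih =>
    rw [List.map_cons, List.prod_cons, ih, MvPolynomial.X, MvPolynomial.monomial_mul, one_mul,
      ← Multiset.cons_coe, ← Multiset.singleton_add, map_add, Multiset.toFinsupp_singleton]

lemma coeff_toMv (p : List (List V)) (m : List V) :
    MvPolynomial.coeff (Multiset.toFinsupp (m : Multiset V)) (toMv p) =
      ((p.filter fun m' => MonEq m' m).length : ℤ) := by
  induction p with
  | nil => simp [toMv]
  | cons a p ih =>
    unfold toMv at ih ⊢
    rw [evalP_cons, MvPolynomial.coeff_add, ih, prod_X_eq, MvPolynomial.coeff_monomial,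
      List.filter_cons]
    have : Multiset.toFinsupp (a : Multiset V) = Multiset.toFinsupp (m : Multiset V) ↔
        MonEq a m := by
      rw [monEq_iff, Multiset.toFinsupp.injective.eq_iff, Multiset.coe_eq_coe]
    by_cases h : MonEq a m
    · rw [if_pos (this.2 h), if_pos (by simpa using h)]
      simp [add_comm]
    · rw [if_neg (fun hh => h (this.1 hh)), if_neg (by simpa using h)]
      simp

lemma polyEq_iff (p q : List (List V)) : PolyEq p q ↔ toMv p = toMv q := by
  constructor
  · intro h
    ext s
    obtain ⟨s, rfl⟩ := Multiset.toFinsupp.surjective s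
    induction s using Quotient.inductionOn with
    | h m =>
      change MvPolynomial.coeff (Multiset.toFinsupp (m : Multiset V)) _ =
        MvPolynomial.coeff (Multiset.toFinsupp (m : Multiset V)) _
      rw [coeff_toMv, coeff_toMv]
      by_cases hm : ∃ m₀ ∈ p ++ q, MonEq m₀ m
      · obtain ⟨m₀, hm₀, he⟩ := hm
        have e : (fun m' => decide (MonEq m' m)) = fun m' => decide (MonEq m' m₀) := by
          funext m'
          rw [monEq_iff] at he
          simp only [monEq_iff, decide_eq_decide]
          exact ⟨fun h => h.trans he.symm, fun h => h.trans he⟩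
        rw [e, h m₀ hm₀]
      · push Not at hm
        have e1 : (p.filter fun m' => MonEq m' m) = [] := by
          rw [List.filter_eq_nil_iff]
          intro a ha
          simpa using hm a (List.mem_append_left _ ha)
        have e2 : (q.filter fun m' => MonEq m' m) = [] := by
          rw [List.filter_eq_nil_iff]
          intro a ha
          simpa using hm a (List.mem_append_right _ ha)
        rw [e1, e2]
  · intro h m _
    have := coeff_toMv p m
    rw [h, coeff_toMv] at this
    exact_mod_cast this.symm

/-- A certificate that `p` lies in the ideal generated by `gs`. -/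
def Cert (gs : List (List (List V))) (p : List (List V))
    (c : List (List V × List (List V)) × List (List V × List (List V))) : Prop :=
  (∀ e ∈ c.1 ++ c.2, e.2 ∈ gs) ∧ PolyEq (p ++ comb c.2) (comb c.1)

instance (gs : List (List (List V))) (p : List (List V))
    (c : List (List V × List (List V)) × List (List V × List (List V))) :
    Decidable (Cert gs p c) := by unfold Cert; infer_instance

omit [DecidableEq V] in
lemma toMv_comb_mem (gs : List (List (List V))) (l : List (List V × List (List V)))
    (hl : ∀ e ∈ l, e.2 ∈ gs) : toMv (comb l) ∈ Ideal.span (toMv '' {g | g ∈ gs}) := by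
  unfold toMv comb
  rw [evalP_flatMap]
  refine list_sum_mem ?_
  intro x hx
  obtain ⟨e, he, rfl⟩ := List.mem_map.1 hx
  rw [evalP_map_append]
  exact Ideal.mul_mem_left _ _ (Ideal.subset_span ⟨e.2, hl e he, rfl⟩)

lemma mem_span_of_cert {gs : List (List (List V))} {p : List (List V)} {c} (h : Cert gs p c) :
    toMv p ∈ Ideal.span (toMv '' {g | g ∈ gs}) := by
  have h1 := toMv_comb_mem gs c.1 fun e he => h.1 e (List.mem_append_left _ he)
  have h2 := toMv_comb_mem gs c.2 fun e he => h.1 e (List.mem_append_right _ he)
  have h3 := (polyEq_iff _ _).1 h.2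
  have : toMv p = toMv (comb c.1) - toMv (comb c.2) := by
    rw [← h3]; simp [toMv]
  rw [this]
  exact Ideal.sub_mem _ h1 h2

omit [DecidableEq V] in
lemma toMv_comb_append (l l' : List (List V × List (List V))) :
    toMv (comb (l ++ l')) = toMv (comb l) + toMv (comb l') := by
  simp [toMv, comb]

omit [DecidableEq V] in
lemma toMv_comb_X (v : V) (l : List (List V × List (List V))) :
    toMv (comb (l.map fun e => (v :: e.1, e.2))) = MvPolynomial.X v * toMv (comb l) := by
  unfold toMv comb
  rw [evalP_flatMap, evalP_flatMap, List.map_map, ← List.sum_map_mul_left]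
  congr 1
  apply List.map_congr_left
  intro e _
  simp only [Function.comp, evalP_map_append, List.map_cons, List.prod_cons, mul_assoc]

/-- Differences of two combinations. -/
def diffs (gs : List (List (List V))) : AddSubgroup (MvPolynomial V ℤ) where
  carrier := {r | ∃ c : List (List V × List (List V)) × List (List V × List (List V)),
    (∀ e ∈ c.1 ++ c.2, e.2 ∈ gs) ∧ r = toMv (comb c.1) - toMv (comb c.2)}
  zero_mem' := ⟨([], []), by simp, by simp⟩
  add_mem' := by
    rintro _ _ ⟨c, hc, rfl⟩ ⟨d, hd, rfl⟩
    refine ⟨(c.1 ++ d.1, c.2 ++ d.2), ?_, ?_⟩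
    · intro e he
      simp only [List.mem_append] at he hc hd
      rcases he with (h | h) | h | h
      exacts [hc e (Or.inl h), hd e (Or.inl h), hc e (Or.inr h), hd e (Or.inr h)]
    · simp only [toMv_comb_append]; ring
  neg_mem' := by
    rintro _ ⟨c, hc, rfl⟩
    refine ⟨(c.2, c.1), ?_, by simp⟩
    intro e he
    simp only [List.mem_append] at he hc
    exact hc e he.symm

omit [DecidableEq V] in
lemma mul_mem_diffs (gs : List (List (List V))) (r : MvPolynomial V ℤ) :
    ∀ z ∈ diffs gs, r * z ∈ diffs gs := by
  induction r using MvPolynomial.induction_on with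
  | C a =>
    intro z hz
    rw [← MvPolynomial.smul_eq_C_mul]
    exact (diffs gs).zsmul_mem hz a
  | add p q hp hq =>
    intro z hz
    rw [add_mul]
    exact (diffs gs).add_mem (hp z hz) (hq z hz)
  | mul_X p v hp =>
    intro z hz
    rw [mul_assoc]
    apply hp
    obtain ⟨c, hc, rfl⟩ := hz
    refine ⟨(c.1.map fun e => (v :: e.1, e.2), c.2.map fun e => (v :: e.1, e.2)), ?_, ?_⟩
    · intro e he
      rw [← List.map_append] at he
      obtain ⟨e', he', rfl⟩ := List.mem_map.1 he
      exact hc e' he'
    · simp only [toMv_comb_X]; ring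

lemma exists_cert {gs : List (List (List V))} {p : List (List V)}
    (h : toMv p ∈ Ideal.span (toMv '' {g | g ∈ gs})) : ∃ c, Cert gs p c := by
  have key : ∀ r ∈ Ideal.span (toMv '' {g | g ∈ gs}), r ∈ diffs gs := by
    intro r hr
    induction hr using Submodule.span_induction with
    | mem x hx =>
      obtain ⟨g, hg, rfl⟩ := hx
      refine ⟨([([], g)], []), by simpa using hg, ?_⟩
      simp [comb, toMv]
    | zero => exact (diffs gs).zero_mem
    | add x y _ _ hx hy => exact (diffs gs).add_mem hx hy
    | smul a x _ hx => exact mul_mem_diffs gs a x hx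
  obtain ⟨c, hc, he⟩ := key _ h
  refine ⟨c, hc, (polyEq_iff _ _).2 ?_⟩
  have : toMv (p ++ comb c.2) = toMv p + toMv (comb c.2) := by simp [toMv]
  rw [this, he]; ring

end

/-- An increasing chain of sets inside a finitely generated subalgebra generates a stationary
chain of ideals. -/
lemma exists_stable {V : Type} (V₀ : Set V) (hV₀ : V₀.Finite) (s : ℕ → Set (MvPolynomial V ℤ))
    (hmono : ∀ n, s n ⊆ s (n + 1))
    (hs : ∀ n, s n ⊆ Algebra.adjoin ℤ (MvPolynomial.X '' V₀ : Set (MvPolynomial V ℤ))) :
    ∃ n, s (n + 1) ⊆ Ideal.span (s n) := by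
  set S := Algebra.adjoin ℤ (MvPolynomial.X '' V₀ : Set (MvPolynomial V ℤ)) with hS
  have hfg : S.FG := Subalgebra.fg_def.2 ⟨_, hV₀.image _, rfl⟩
  have : IsNoetherianRing S := isNoetherianRing_of_fg hfg
  have hm : Monotone s := monotone_nat_of_le_succ hmono
  let J : ℕ →o Ideal S := ⟨fun n => Ideal.span (Subtype.val ⁻¹' s n), fun a b hab =>
    Ideal.span_mono (Set.preimage_mono (hm hab))⟩
  obtain ⟨n, hn⟩ := monotone_stabilizes_iff_noetherian.2 (inferInstance : IsNoetherian S S) J
  refine ⟨n, fun x hx => ?_⟩
  have h1 : (⟨x, hs _ hx⟩ : S) ∈ J (n + 1) := Ideal.subset_span hx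
  rw [← hn (n + 1) (Nat.le_succ n)] at h1
  have h2 : J n ≤ (Ideal.span (s n)).comap S.val.toRingHom := by
    refine Ideal.span_le.2 fun y hy => ?_
    exact Ideal.subset_span hy
  exact h2 h1

end Pool.Agent.P.MP_8ee1cf_lc
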