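import Mathlib
import Pool.Agent.P.MP_8ee1cf_lc.Defs
import Pool.Agent.P.MP_8ee1cf_lc.Poly

/-! The algorithm. -/

namespace Pool.Agent.P.MP_8ee1cf_lc

/-- Substitute, occurrence by occurrence, a word of `ch x` for each letter `x`. -/
def osub {β γ : Type} (ch : β → List (List γ)) (α : List β) : List (List γ) :=
  α.foldr (fun x acc => (ch x).flatMap fun u => acc.map fun w => u ++ w) [[]]

@[simp] lemma osub_nil {β γ : Type} (ch : β → List (List γ)) : osub ch [] = [[]] := rfl

lemma osub_cons {β γ : Type} (ch : β → List (List γ)) (x : β) (α : List β) :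
    osub ch (x :: α) = (ch x).flatMap fun u => (osub ch α).map fun w => u ++ w := rfl

/-- Letters of right-hand sides. -/
abbrev Sym : Type := ℕ ⊕ ℕ

/-- Heads: top index symbol (or bottom of the stack) and nonterminal. -/
abbrev Head : Type := Option ℕ × ℕ

/-- A table of words with heads. -/
abbrev Tab : Type := List (Head × List Sym)

/-- The words with a given head. -/
def getT (T : Tab) (h : Head) : List (List Sym) := (T.filter fun e => e.1 = h).map Prod.snd

lemma mem_getT {T : Tab} {h : Head} {w : List Sym} : w ∈ getT T h ↔ (h, w) ∈ T := by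
  simp only [getT, List.mem_map, List.mem_filter, decide_eq_true_eq]
  constructor
  · rintro ⟨e, ⟨he, rfl⟩, rfl⟩; exact he
  · intro h'; exact ⟨_, ⟨h', rfl⟩, rfl⟩

/-- The choices for a letter. -/
def chT (T : Tab) (o : Option ℕ) (x : Sym) : List (List Sym) :=
  Sum.casesOn x (fun t => [[Sum.inl t]]) fun B => getT T (o, B)

/-- The index symbols that matter. -/
def idx (G : Grammar) : List (Option ℕ) := none :: G.2.2.1.map fun r => some r.2.2

/-- Contribution of the plain rules. -/
def phi1 (G : Grammar) (T : Tab) : Tab :=
  (idx G).flatMap fun o => G.2.1.flatMap fun r => (osub (chT T o) r.2).map fun w => ((o, r.1), w)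

/-- Contribution of the push rules. -/
def phi2 (G : Grammar) (T : Tab) : Tab :=
  (idx G).flatMap fun o => G.2.2.1.flatMap fun r =>
    (getT T (some r.2.2, r.2.1)).flatMap fun x => (osub (chT T o) x).map fun w => ((o, r.1), w)

/-- Contribution of the pop rules. -/
def phi3 (G : Grammar) : Tab := G.2.2.2.map fun r => ((some r.2.1, r.1), r.2.2)

/-- One round. -/
def phi (G : Grammar) (T : Tab) : Tab := phi1 G T ++ phi2 G T ++ phi3 G

/-- The tables. -/
def tab (G : Grammar) (n : ℕ) : Tab := (fun T => T ++ phi G T)^[n] []

lemma tab_succ (G : Grammar) (n : ℕ) : tab G (n + 1) = tab G n ++ phi G (tab G n) := by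
  simp only [tab, Function.iterate_succ_apply']

/-- Matrix positions. -/
abbrev Pos : Type := Fin 3 × Fin 3

/-- All matrix positions. -/
def allPos : List Pos := (List.finRange 3).flatMap fun i => (List.finRange 3).map fun j => (i, j)

/-- Letters with a copy number. -/
abbrev Sym' : Type := Sym × Pos

/-- The copies of a letter. -/
def chP (x : Sym) : List (List Sym') :=
  Sum.casesOn x (fun t => [[(Sum.inl t, (0, 0))]]) fun B => allPos.map fun ij => [(Sum.inr B, ij)]

/-- Variables. -/
abbrev Var : Type := (Head ⊕ Sym') × Pos

/-- Column `j` of the generic matrix product. -/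
def col (w : List Sym') (j : Fin 3) : List (Fin 3 × List Var) :=
  w.foldr (fun x acc => acc.flatMap fun km => (List.finRange 3).map fun i =>
    (i, (Sum.inr x, (i, km.1)) :: km.2)) [(j, [])]

/-- The generic linear functional of head `h` applied to the generic matrix product. -/
def polyW (h : Head) (w : List Sym') : List (List Var) :=
  (List.finRange 3).flatMap fun j => (col w j).map fun im => (Sum.inl h, (im.1, j)) :: im.2

/-- The polynomials of a table. -/
def gens (T : Tab) : List (List (List Var)) :=
  T.flatMap fun e => (osub chP e.2).map fun w' => polyW e.1 w'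

/-- Certificates. -/
abbrev CertT : Type := List (List Var × List (List Var)) × List (List Var × List (List Var))

/-- The closure check. -/
def Check (G : Grammar) (T : Tab) (C : List CertT) : Prop :=
  ∀ p ∈ gens (phi G T), ∃ c ∈ C, Cert (gens T) p c

instance (G : Grammar) (T : Tab) (C : List CertT) : Decidable (Check G T C) := by
  unfold Check; infer_instance

/-- The output read off a table. -/
def outp (G : Grammar) (T : Tab) : List (List ℕ) :=
  (getT T (none, G.1)).map fun w => w.map fun x => Sum.casesOn x (fun t => t) fun t => t

/-- The search step. -/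
def search (G : Grammar) (k : ℕ) : Option (List (List ℕ)) :=
  (Encodable.decode (α := ℕ × List CertT) k).bind fun nC =>
    if Check G (tab G nC.1) nC.2 then some (outp G (tab G nC.1)) else none

end Pool.Agent.P.MP_8ee1cf_lc
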