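import Mathlib
import Pool.Agent.P.MP_8ee1cf_lc.Algo

/-! The search step is primitive recursive. -/

namespace Pool.Agent.P.MP_8ee1cf_lc

open Primrec

section general
variable {α β γ : Type} [Primcodable α] [Primcodable β] [Primcodable γ]

lemma prim_osub {ch : α → β → List (List γ)} {f : α → List β} (hch : Primrec₂ ch)
    (hf : Primrec f) : Primrec fun a => osub (ch a) (f a) := by
  unfold osub
  refine list_foldr (h := fun a (p : β × List (List γ)) =>
    (ch a p.1).flatMap fun u => p.2.map fun w => u ++ w) hf (const [[]]) ?_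
  refine Primrec.to₂ (f := fun q : α × β × List (List γ) =>
    (ch q.1 q.2.1).flatMap fun u => q.2.2.map fun w => u ++ w) ?_
  refine list_flatMap (hch.comp fst (fst.comp snd)) ?_
  refine Primrec.to₂ (f := fun r : (α × β × List (List γ)) × List γ =>
    r.1.2.2.map fun w => r.2 ++ w) ?_
  refine list_map (snd.comp (snd.comp fst)) ?_
  exact Primrec.to₂ (f := fun s : ((α × β × List (List γ)) × List γ) × List γ => s.1.2 ++ s.2)
    (list_append.comp (snd.comp fst) snd)

lemma prim_filter {R : β → α → Prop} [DecidableRel R] (hR : PrimrecRel R) {f : α → List β}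
    (hf : Primrec f) : Primrec fun a => (f a).filter fun b => R b a :=
  (PrimrecRel.listFilter hR).comp hf Primrec.id

lemma prim_forall {R : β → α → Prop} (hR : PrimrecRel R) {f : α → List β}
    (hf : Primrec f) : PrimrecPred fun a => ∀ b ∈ f a, R b a :=
  (PrimrecRel.forall_mem_list hR).comp hf Primrec.id

lemma prim_exists {R : β → α → Prop} (hR : PrimrecRel R) {f : α → List β}
    (hf : Primrec f) : PrimrecPred fun a => ∃ b ∈ f a, R b a :=
  (PrimrecRel.exists_mem_list hR).comp hf Primrec.id

lemma prim_mem : PrimrecRel fun (a : α) (l : List α) => a ∈ l := by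
  have : PrimrecRel fun (l : List α) (a : α) => ∃ b ∈ l, b = a :=
    PrimrecRel.exists_mem_list Primrec.eq
  exact this.swap.of_eq fun a l => by simp [Function.swap]

variable [DecidableEq α]

lemma prim_count : Primrec₂ fun (l : List α) (x : α) => l.count x := by
  have : Primrec₂ fun (l : List α) (x : α) => (l.filter fun b => b = x).length :=
    list_length.comp₂ (PrimrecRel.listFilter Primrec.eq)
  refine this.of_eq fun l x => ?_
  rw [List.count_eq_length_filter]
  congr 2

lemma prim_monEq : PrimrecRel (MonEq : List α → List α → Prop) := by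
  have : PrimrecPred fun p : List α × List α => ∀ x ∈ p.1 ++ p.2, p.1.count x = p.2.count x := by
    refine prim_forall (R := fun x (p : List α × List α) => p.1.count x = p.2.count x) ?_
      (list_append.comp fst snd)
    exact PrimrecPred.primrecRel (p := fun q : α × List α × List α =>
      q.2.1.count q.1 = q.2.2.count q.1)
      (Primrec.eq.comp (prim_count.comp (fst.comp snd) fst) (prim_count.comp (snd.comp snd) fst))
  exact this

lemma prim_polyEq : PrimrecRel (PolyEq : List (List α) → List (List α) → Prop) := by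
  have h0 : Primrec₂ fun (p : List (List α)) (m : List α) =>
      (p.filter fun m' => MonEq m' m).length :=
    list_length.comp₂ (PrimrecRel.listFilter prim_monEq)
  have : PrimrecPred fun p : List (List α) × List (List α) => ∀ m ∈ p.1 ++ p.2,
      (p.1.filter fun m' => MonEq m' m).length = (p.2.filter fun m' => MonEq m' m).length := by
    refine prim_forall (R := fun m (p : List (List α) × List (List α)) =>
      (p.1.filter fun m' => MonEq m' m).length = (p.2.filter fun m' => MonEq m' m).length) ?_
      (list_append.comp fst snd)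
    exact PrimrecPred.primrecRel (p := fun q : List α × List (List α) × List (List α) =>
      (q.2.1.filter fun m' => MonEq m' q.1).length = (q.2.2.filter fun m' => MonEq m' q.1).length)
      (Primrec.eq.comp (h0.comp (fst.comp snd) fst) (h0.comp (snd.comp snd) fst))
  exact this

omit [DecidableEq α] in
lemma prim_comb : Primrec (comb : List (List α × List (List α)) → List (List α)) := by
  unfold comb
  refine list_flatMap Primrec.id ?_
  refine Primrec.to₂ (f := fun r : List (List α × List (List α)) × (List α × List (List α)) =>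
    r.2.2.map fun m' => r.2.1 ++ m') ?_
  refine list_map (snd.comp snd) ?_
  exact Primrec.to₂ (f := fun s : (List (List α × List (List α)) × (List α × List (List α))) ×
    List α => s.1.2.1 ++ s.2) (list_append.comp (fst.comp (snd.comp fst)) snd)

lemma prim_cert {gs : β → List (List (List α))} {p : β → List (List α)}
    {c : β → List (List α × List (List α)) × List (List α × List (List α))}
    (hgs : Primrec gs) (hp : Primrec p) (hc : Primrec c) :
    PrimrecPred fun b => Cert (gs b) (p b) (c b) := by
  unfold Cert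
  refine PrimrecPred.and ?_ ?_
  · refine prim_forall (R := fun (e : List α × List (List α)) b => e.2 ∈ gs b) ?_
      (list_append.comp (fst.comp hc) (snd.comp hc))
    exact PrimrecPred.primrecRel (p := fun q : (List α × List (List α)) × β => q.1.2 ∈ gs q.2)
      (prim_mem.comp (snd.comp fst) (hgs.comp snd))
  · exact prim_polyEq.comp (list_append.comp hp (prim_comb.comp (snd.comp hc)))
      (prim_comb.comp (fst.comp hc))

lemma prim_check_gen {gs ps : β → List (List (List α))}
    {C : β → List (List (List α × List (List α)) × List (List α × List (List α)))}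
    (hgs : Primrec gs) (hps : Primrec ps) (hC : Primrec C) :
    PrimrecPred fun b => ∀ p ∈ ps b, ∃ c ∈ C b, Cert (gs b) p c := by
  refine prim_forall (R := fun p b => ∃ c ∈ C b, Cert (gs b) p c) ?_ hps
  refine PrimrecPred.primrecRel (p := fun q : List (List α) × β =>
    ∃ c ∈ C q.2, Cert (gs q.2) q.1 c) ?_
  refine prim_exists (R := fun c (q : List (List α) × β) => Cert (gs q.2) q.1 c) ?_ (hC.comp snd)
  refine PrimrecPred.primrecRel (p := fun r : (List (List α × List (List α)) ×
    List (List α × List (List α))) × (List (List α) × β) => Cert (gs r.2.2) r.2.1 r.1) ?_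
  exact prim_cert (hgs.comp (snd.comp snd)) (fst.comp snd) fst

end general

lemma prim_getT : Primrec₂ getT := by
  have h1 : PrimrecRel fun (e : Head × List Sym) (h : Head) => e.1 = h :=
    PrimrecPred.primrecRel (p := fun q : (Head × List Sym) × Head => q.1.1 = q.2)
      (Primrec.eq.comp (fst.comp fst) snd)
  have h2 := PrimrecRel.listFilter h1
  unfold getT
  refine Primrec.to₂ (f := fun q : Tab × Head =>
    (q.1.filter fun e => e.1 = q.2).map Prod.snd) ?_
  exact list_map h2 (Primrec.to₂ (f := fun r : (Tab × Head) × (Head × List Sym) => r.2.2)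
    (snd.comp snd))

lemma prim_chT {α : Type} [Primcodable α] {T : α → Tab} {o : α → Option ℕ} (hT : Primrec T)
    (ho : Primrec o) : Primrec₂ fun a x => chT (T a) (o a) x := by
  unfold chT
  refine Primrec.to₂ (f := fun q : α × Sym => (Sum.casesOn q.2 (fun t => [[Sum.inl t]])
    (fun B => getT (T q.1) (o q.1, B)) : List (List Sym))) ?_
  refine sumCasesOn (g := fun (_ : α × Sym) (t : ℕ) => ([[Sum.inl t]] : List (List Sym)))
    (h := fun (q : α × Sym) (B : ℕ) => getT (T q.1) (o q.1, B)) snd ?_ ?_
  · exact Primrec.to₂ (f := fun r : (α × Sym) × ℕ => ([[Sum.inl r.2]] : List (List Sym)))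
      (list_cons.comp (list_cons.comp (sumInl.comp snd) (const [])) (const []))
  · exact Primrec.to₂ (f := fun r : (α × Sym) × ℕ => getT (T r.1.1) (o r.1.1, r.2))
      (prim_getT.comp (hT.comp (fst.comp fst)) (pair (ho.comp (fst.comp fst)) snd))

lemma prim_idx : Primrec idx := by
  unfold idx
  refine list_cons.comp (const none) ?_
  exact list_map (fst.comp (snd.comp snd))
    (Primrec.to₂ (f := fun r : Grammar × (ℕ × ℕ × ℕ) => some r.2.2.2)
      (option_some.comp (snd.comp (snd.comp snd))))

lemma prim_sub {α : Type} [Primcodable α] {T : α → Tab} {o : α → Option ℕ} {A : α → ℕ}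
    {x : α → List Sym} (hT : Primrec T) (ho : Primrec o) (hA : Primrec A) (hx : Primrec x) :
    Primrec fun a => ((osub (chT (T a) (o a)) (x a)).map fun w => ((o a, A a), w) : Tab) := by
  refine list_map (prim_osub (ch := fun a x => chT (T a) (o a) x) (prim_chT hT ho) hx) ?_
  exact Primrec.to₂ (f := fun r : α × List Sym => ((o r.1, A r.1), r.2))
    (pair (pair (ho.comp fst) (hA.comp fst)) snd)

lemma prim_phi1 : Primrec₂ phi1 := by
  unfold phi1
  refine Primrec.to₂ (f := fun q : Grammar × Tab => ((idx q.1).flatMap fun o =>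
    q.1.2.1.flatMap fun r => (osub (chT q.2 o) r.2).map fun w => ((o, r.1), w) : Tab)) ?_
  refine list_flatMap (prim_idx.comp fst) ?_
  refine Primrec.to₂ (f := fun s : (Grammar × Tab) × Option ℕ =>
    (s.1.1.2.1.flatMap fun r => (osub (chT s.1.2 s.2) r.2).map fun w => ((s.2, r.1), w) : Tab)) ?_
  refine list_flatMap (fst.comp (snd.comp (fst.comp fst))) ?_
  refine Primrec.to₂ (f := fun t : ((Grammar × Tab) × Option ℕ) × (ℕ × List Sym) =>
    ((osub (chT t.1.1.2 t.1.2) t.2.2).map fun w => ((t.1.2, t.2.1), w) : Tab)) ?_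
  exact prim_sub (snd.comp (fst.comp fst)) (snd.comp fst) (fst.comp snd) (snd.comp snd)

lemma prim_phi2 : Primrec₂ phi2 := by
  unfold phi2
  refine Primrec.to₂ (f := fun q : Grammar × Tab => ((idx q.1).flatMap fun o =>
    q.1.2.2.1.flatMap fun r => (getT q.2 (some r.2.2, r.2.1)).flatMap fun x =>
      (osub (chT q.2 o) x).map fun w => ((o, r.1), w) : Tab)) ?_
  refine list_flatMap (prim_idx.comp fst) ?_
  refine Primrec.to₂ (f := fun s : (Grammar × Tab) × Option ℕ =>
    (s.1.1.2.2.1.flatMap fun r => (getT s.1.2 (some r.2.2, r.2.1)).flatMap fun x =>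
      (osub (chT s.1.2 s.2) x).map fun w => ((s.2, r.1), w) : Tab)) ?_
  refine list_flatMap (fst.comp (snd.comp (snd.comp (fst.comp fst)))) ?_
  refine Primrec.to₂ (f := fun t : ((Grammar × Tab) × Option ℕ) × (ℕ × ℕ × ℕ) =>
    ((getT t.1.1.2 (some t.2.2.2, t.2.2.1)).flatMap fun x =>
      (osub (chT t.1.1.2 t.1.2) x).map fun w => ((t.1.2, t.2.1), w) : Tab)) ?_
  refine list_flatMap (prim_getT.comp (snd.comp (fst.comp fst))
    (pair (option_some.comp (snd.comp (snd.comp snd))) (fst.comp (snd.comp snd)))) ?_
  refine Primrec.to₂ (f := fun y : (((Grammar × Tab) × Option ℕ) × (ℕ × ℕ × ℕ)) × List Sym =>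
    ((osub (chT y.1.1.1.2 y.1.1.2) y.2).map fun w => ((y.1.1.2, y.1.2.1), w) : Tab)) ?_
  exact prim_sub (snd.comp (fst.comp (fst.comp fst))) (snd.comp (fst.comp fst))
    (fst.comp (snd.comp fst)) snd

lemma prim_phi3 : Primrec phi3 := by
  unfold phi3
  refine list_map (snd.comp (snd.comp snd)) ?_
  exact Primrec.to₂ (f := fun r : Grammar × (ℕ × ℕ × List Sym) =>
    (((some r.2.2.1, r.2.1), r.2.2.2) : Head × List Sym))
    (pair (pair (option_some.comp (fst.comp (snd.comp snd))) (fst.comp snd))
      (snd.comp (snd.comp snd)))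

lemma prim_phi : Primrec₂ phi := by
  unfold phi
  exact Primrec.to₂ (f := fun q : Grammar × Tab => phi1 q.1 q.2 ++ phi2 q.1 q.2 ++ phi3 q.1)
    (list_append.comp (list_append.comp prim_phi1 prim_phi2) (prim_phi3.comp fst))

lemma prim_tab : Primrec₂ tab := by
  unfold tab
  refine Primrec.to₂ (f := fun q : Grammar × ℕ => (fun T => T ++ phi q.1 T)^[q.2] []) ?_
  refine nat_iterate (h := fun (q : Grammar × ℕ) (T : Tab) => T ++ phi q.1 T) snd (const []) ?_
  exact Primrec.to₂ (f := fun r : (Grammar × ℕ) × Tab => r.2 ++ phi r.1.1 r.2)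
    (list_append.comp snd (prim_phi.comp (fst.comp fst) snd))

lemma prim_chP : Primrec chP := by
  unfold chP
  refine sumCasesOn (g := fun (_ : Sym) (t : ℕ) => ([[(Sum.inl t, (0, 0))]] : List (List Sym')))
    (h := fun (_ : Sym) (B : ℕ) => (allPos.map fun ij => [(Sum.inr B, ij)] : List (List Sym')))
    Primrec.id ?_ ?_
  · exact Primrec.to₂ (f := fun r : Sym × ℕ => ([[(Sum.inl r.2, (0, 0))]] : List (List Sym')))
      (list_cons.comp (list_cons.comp (pair (sumInl.comp snd) (const _)) (const [])) (const []))
  · refine Primrec.to₂ (f := fun r : Sym × ℕ =>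
      (allPos.map fun ij => [(Sum.inr r.2, ij)] : List (List Sym'))) ?_
    refine list_map (const allPos) ?_
    exact Primrec.to₂ (f := fun s : (Sym × ℕ) × Pos => ([(Sum.inr s.1.2, s.2)] : List Sym'))
      (list_cons.comp (pair (sumInr.comp (snd.comp fst)) snd) (const []))

lemma prim_colStep : Primrec₂ fun (x : Sym') (acc : List (Fin 3 × List Var)) =>
    (acc.flatMap fun km => (List.finRange 3).map fun i =>
      (i, (Sum.inr x, (i, km.1)) :: km.2) : List (Fin 3 × List Var)) := by
  refine Primrec.to₂ (f := fun q : Sym' × List (Fin 3 × List Var) =>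
    (q.2.flatMap fun km => (List.finRange 3).map fun i =>
      (i, (Sum.inr q.1, (i, km.1)) :: km.2) : List (Fin 3 × List Var))) ?_
  refine list_flatMap snd ?_
  refine Primrec.to₂ (f := fun r : (Sym' × List (Fin 3 × List Var)) × (Fin 3 × List Var) =>
    ((List.finRange 3).map fun i =>
      (i, (Sum.inr r.1.1, (i, r.2.1)) :: r.2.2) : List (Fin 3 × List Var))) ?_
  refine list_map (const _) ?_
  exact Primrec.to₂ (f := fun s : ((Sym' × List (Fin 3 × List Var)) × (Fin 3 × List Var)) × Fin 3 =>
    ((s.2, (Sum.inr s.1.1.1, (s.2, s.1.2.1)) :: s.1.2.2) : Fin 3 × List Var))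
    (pair snd (list_cons.comp (pair (sumInr.comp (fst.comp (fst.comp fst)))
      (pair snd (fst.comp (snd.comp fst)))) (snd.comp (snd.comp fst))))

lemma prim_col : Primrec₂ col := by
  unfold col
  refine Primrec.to₂ (f := fun q : List Sym' × Fin 3 =>
    (q.1.foldr (fun x acc => acc.flatMap fun km => (List.finRange 3).map fun i =>
      (i, (Sum.inr x, (i, km.1)) :: km.2)) [(q.2, [])] : List (Fin 3 × List Var))) ?_
  refine list_foldr (h := fun (_ : List Sym' × Fin 3) (p : Sym' × List (Fin 3 × List Var)) =>
    (p.2.flatMap fun km => (List.finRange 3).map fun i =>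
      (i, (Sum.inr p.1, (i, km.1)) :: km.2) : List (Fin 3 × List Var))) fst
    (list_cons.comp (pair snd (const [])) (const [])) ?_
  exact prim_colStep.comp₂ (fst.comp₂ Primrec₂.right) (snd.comp₂ Primrec₂.right)

lemma prim_polyW : Primrec₂ polyW := by
  unfold polyW
  refine Primrec.to₂ (f := fun q : Head × List Sym' => ((List.finRange 3).flatMap fun j =>
    (col q.2 j).map fun im => (Sum.inl q.1, (im.1, j)) :: im.2 : List (List Var))) ?_
  refine list_flatMap (const _) ?_
  refine Primrec.to₂ (f := fun r : (Head × List Sym') × Fin 3 =>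
    ((col r.1.2 r.2).map fun im => (Sum.inl r.1.1, (im.1, r.2)) :: im.2 : List (List Var))) ?_
  refine list_map (prim_col.comp (snd.comp fst) snd) ?_
  exact Primrec.to₂ (f := fun s : ((Head × List Sym') × Fin 3) × (Fin 3 × List Var) =>
    ((Sum.inl s.1.1.1, (s.2.1, s.1.2)) :: s.2.2 : List Var))
    (list_cons.comp (pair (sumInl.comp (fst.comp (fst.comp fst)))
      (pair (fst.comp snd) (snd.comp fst))) (snd.comp snd))

lemma prim_gens : Primrec gens := by
  unfold gens
  refine list_flatMap Primrec.id ?_
  refine Primrec.to₂ (f := fun r : Tab × (Head × List Sym) =>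
    (osub chP r.2.2).map fun w' => polyW r.2.1 w') ?_
  refine list_map (prim_osub (ch := fun _ x => chP x) (prim_chP.comp₂ Primrec₂.right)
    (snd.comp snd)) ?_
  exact Primrec.to₂ (f := fun s : (Tab × (Head × List Sym)) × List Sym' => polyW s.1.2.1 s.2)
    (prim_polyW.comp (fst.comp (snd.comp fst)) snd)

lemma prim_check {α : Type} [Primcodable α] {G : α → Grammar} {T : α → Tab} {C : α → List CertT}
    (hG : Primrec G) (hT : Primrec T) (hC : Primrec C) :
    PrimrecPred fun a => Check (G a) (T a) (C a) := by
  unfold Check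
  exact prim_check_gen (prim_gens.comp hT) (prim_gens.comp (prim_phi.comp hG hT)) hC

lemma prim_outp : Primrec₂ outp := by
  unfold outp
  refine Primrec.to₂ (f := fun q : Grammar × Tab => ((getT q.2 (none, q.1.1)).map fun w =>
    w.map fun x => Sum.casesOn x (fun t => t) fun t => t : List (List ℕ))) ?_
  refine list_map (prim_getT.comp snd (pair (const none) (fst.comp fst))) ?_
  refine Primrec.to₂ (f := fun r : (Grammar × Tab) × List Sym =>
    (r.2.map fun x => Sum.casesOn x (fun t => t) fun t => t : List ℕ)) ?_
  refine list_map snd ?_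
  have : Primrec fun x : Sym => (Sum.casesOn x (fun t => t) fun t => t : ℕ) :=
    sumCasesOn (g := fun (_ : Sym) (t : ℕ) => t) (h := fun (_ : Sym) (t : ℕ) => t)
      Primrec.id Primrec₂.right Primrec₂.right
  exact this.comp₂ Primrec₂.right

set_option synthInstance.maxSize 2048 in
lemma prim_search : Primrec₂ search := by
  unfold search
  refine Primrec.to₂ (f := fun q : Grammar × ℕ =>
    (Encodable.decode (α := ℕ × List CertT) q.2).bind fun nC =>
      if Check q.1 (tab q.1 nC.1) nC.2 then some (outp q.1 (tab q.1 nC.1)) else none) ?_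
  refine option_bind (Primrec.decode.comp snd) ?_
  refine Primrec.to₂ (f := fun r : (Grammar × ℕ) × (ℕ × List CertT) =>
    if Check r.1.1 (tab r.1.1 r.2.1) r.2.2 then some (outp r.1.1 (tab r.1.1 r.2.1)) else none) ?_
  have ht : Primrec fun r : (Grammar × ℕ) × (ℕ × List CertT) => tab r.1.1 r.2.1 :=
    prim_tab.comp (fst.comp fst) (fst.comp snd)
  exact Primrec.ite (prim_check (fst.comp fst) ht (snd.comp snd))
    (option_some.comp (prim_outp.comp (fst.comp fst) ht)) (const none)

end Pool.Agent.P.MP_8ee1cf_lc
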