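import Mathlib
import Pool.Agent.P.MP_8ee1cf_lc.Algo

/-! Soundness of the closure check. -/

namespace Pool.Agent.P.MP_8ee1cf_lc

open Submodule

section semiring
variable {S β γ : Type} [Semiring S]

lemma sum_map_flatMap {δ : Type} (l : List β) (f : β → List δ) (g : δ → S) :
    ((l.flatMap f).map g).sum = (l.map fun b => ((f b).map g).sum).sum := by
  induction l with
  | nil => simp
  | cons a l ih => simp [ih]

lemma osub_sem (φ : γ → S) (ch : β → List (List γ)) (α : List β) :
    ((osub ch α).map fun w => (w.map φ).prod).sum =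
      (α.map fun x => ((ch x).map fun u => (u.map φ).prod).sum).prod := by
  induction α with
  | nil => simp
  | cons x α ih =>
    rw [osub_cons, sum_map_flatMap, List.map_cons, List.prod_cons, ← ih,
      ← List.sum_map_mul_right]
    congr 1
    apply List.map_congr_left
    intro u _
    rw [List.map_map, ← List.sum_map_mul_left]
    congr 1
    apply List.map_congr_left
    intro w _
    simp

end semiring

/-- The matrix algebra. -/
abbrev Mat : Type := Matrix (Fin 3) (Fin 3) ℚ

lemma le_sum_of_mem {β : Type} (l : List β) (f : β → Submodule ℚ Mat) {b : β} (hb : b ∈ l) :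
    f b ≤ (l.map f).sum := by
  induction l with
  | nil => simp at hb
  | cons a l ih =>
    rw [List.map_cons, List.sum_cons, Submodule.add_eq_sup]
    rcases List.mem_cons.1 hb with rfl | h
    · exact le_sup_left
    · exact (ih h).trans le_sup_right

lemma sum_le_of_forall {β : Type} (l : List β) (f : β → Submodule ℚ Mat) {Z : Submodule ℚ Mat}
    (h : ∀ b ∈ l, f b ≤ Z) : (l.map f).sum ≤ Z := by
  induction l with
  | nil => simp
  | cons a l ih =>
    rw [List.map_cons, List.sum_cons, Submodule.add_eq_sup]
    exact sup_le (h a List.mem_cons_self) (ih fun b hb => h b (List.mem_cons_of_mem _ hb))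

lemma prod_span_singleton {β : Type} (μ : β → Mat) (w : List β) :
    (w.map fun x => span ℚ {μ x}).prod = span ℚ {(w.map μ).prod} := by
  induction w with
  | nil => simp [Submodule.one_eq_span]
  | cons a w ih => simp [ih, Submodule.span_mul_span]

variable (ρ : ℕ → Mat)

/-- The subspace of a letter. -/
noncomputable def symSem (U : ℕ → Submodule ℚ Mat) (x : Sym) : Submodule ℚ Mat :=
  Sum.elim (fun t => span ℚ {ρ t}) U x

/-- The subspace of a word. -/
noncomputable def wordSem (U : ℕ → Submodule ℚ Mat) (w : List Sym) : Submodule ℚ Mat :=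
  (w.map (symSem ρ U)).prod

/-- The subspace of a list of words. -/
noncomputable def setSem (U : ℕ → Submodule ℚ Mat) (ws : List (List Sym)) : Submodule ℚ Mat :=
  (ws.map (wordSem ρ U)).sum

lemma setSem_osub (U : ℕ → Submodule ℚ Mat) (T : Tab) (o : Option ℕ) (α : List Sym) :
    setSem ρ U (osub (chT T o) α) = wordSem ρ (fun B => setSem ρ U (getT T (o, B))) α := by
  unfold setSem wordSem
  rw [osub_sem]
  congr 1
  apply List.map_congr_left
  intro x _
  cases x with
  | inl t => simp [chT, symSem]
  | inr B => simp [chT, symSem]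

lemma mem_allPos (p : Pos) : p ∈ allPos := by
  obtain ⟨i, j⟩ := p
  simp [allPos]

lemma exists_spanning (U : Submodule ℚ Mat) :
    ∃ m : Pos → Mat, (allPos.map fun ij => span ℚ {m ij}).sum = U := by
  obtain ⟨g, hg⟩ := LinearMap.exists_leftInverse_of_injective U.subtype U.ker_subtype
  refine ⟨fun ij => (g (Matrix.single ij.1 ij.2 1) : Mat), le_antisymm ?_ ?_⟩
  · refine sum_le_of_forall _ _ fun ij _ => ?_
    rw [span_le, Set.singleton_subset_iff]
    exact (g _).2
  · intro u hu
    have h1 : (g u : Mat) = u := congrArg Subtype.val (LinearMap.congr_fun hg ⟨u, hu⟩)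
    rw [← h1, Matrix.matrix_eq_sum_single u]
    simp only [map_sum, Submodule.coe_sum]
    refine sum_mem fun i _ => sum_mem fun j _ => ?_
    have : Matrix.single i j (u i j) = u i j • (Matrix.single i j 1 : Mat) := by
      rw [Matrix.smul_single, smul_eq_mul, mul_one]
    rw [this, map_smul, Submodule.coe_smul]
    refine smul_mem _ _ ?_
    exact le_sum_of_mem allPos (fun ij => span ℚ {(g (Matrix.single ij.1 ij.2 1) : Mat)})
      (mem_allPos (i, j)) (mem_span_singleton_self _)

lemma exists_mu (U : ℕ → Submodule ℚ Mat) : ∃ μ : Sym' → Mat, ∀ w : List Sym,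
    wordSem ρ U w = ((osub chP w).map fun w' => span ℚ {(w'.map μ).prod}).sum := by
  choose m hm using fun B => exists_spanning (U B)
  refine ⟨fun x => Sum.elim (fun t => ρ t) (fun B => m B x.2) x.1, fun w => ?_⟩
  simp only [← prod_span_singleton]
  rw [osub_sem, wordSem]
  congr 1
  apply List.map_congr_left
  intro x _
  cases x with
  | inl t => simp [chP, symSem]
  | inr B => simp [chP, symSem, ← hm B, Function.comp_def]

lemma sum_finRange (f : Fin 3 → ℚ) : ((List.finRange 3).map f).sum = ∑ i, f i := by
  rw [Fin.sum_univ_def]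

lemma col_sem (ν : Var → ℚ) (μ : Sym' → Mat) (hν : ∀ x i k, ν (Sum.inr x, (i, k)) = μ x i k)
    (w : List Sym') (j : Fin 3) (e : Fin 3 → ℚ) :
    ((col w j).map fun im => e im.1 * (im.2.map ν).prod).sum =
      ∑ i, e i * (w.map μ).prod i j := by
  induction w generalizing e with
  | nil => simp [col, Matrix.one_apply]
  | cons x w ih =>
    have hc : col (x :: w) j = (col w j).flatMap fun km => (List.finRange 3).map fun i =>
      (i, (Sum.inr x, (i, km.1)) :: km.2) := rfl
    rw [hc, sum_map_flatMap]
    have := ih fun k => ∑ i, e i * μ x i k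
    simp only [List.map_map, Function.comp_def, List.map_cons, List.prod_cons, hν, sum_finRange,
      Matrix.mul_apply, Finset.mul_sum, Finset.sum_mul, mul_assoc] at this ⊢
    rw [this, Finset.sum_comm]

lemma polyW_sem (ν : Var → ℚ) (μ : Sym' → Mat) (hν : ∀ x i k, ν (Sum.inr x, (i, k)) = μ x i k)
    (h : Head) (w : List Sym') :
    evalP ν (polyW h w) = ∑ j, ∑ i, ν (Sum.inl h, (i, j)) * (w.map μ).prod i j := by
  unfold polyW
  rw [evalP_flatMap, sum_finRange]
  refine Finset.sum_congr rfl fun j _ => ?_
  rw [← col_sem ν μ hν w j fun i => ν (Sum.inl h, (i, j))]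
  simp [evalP, Function.comp_def]

lemma mem_gens {T : Tab} {p : List (List Var)} :
    p ∈ gens T ↔ ∃ e ∈ T, ∃ w' ∈ osub chP e.2, p = polyW e.1 w' := by
  simp only [gens, List.mem_flatMap, List.mem_map]
  constructor
  · rintro ⟨e, he, w', hw', rfl⟩; exact ⟨e, he, w', hw', rfl⟩
  · rintro ⟨e, he, w', hw', rfl⟩; exact ⟨e, he, w', hw', rfl⟩

lemma dual_apply (l : Module.Dual ℚ Mat) (M : Mat) :
    l M = ∑ j, ∑ i, l (Matrix.single i j 1) * M i j := by
  conv_lhs => rw [Matrix.matrix_eq_sum_single M]
  rw [Finset.sum_comm]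
  simp only [map_sum]
  refine Finset.sum_congr rfl fun j _ => Finset.sum_congr rfl fun i _ => ?_
  have : Matrix.single i j (M i j) = M i j • (Matrix.single i j 1 : Mat) := by
    rw [Matrix.smul_single, smul_eq_mul, mul_one]
  rw [this, map_smul, smul_eq_mul, mul_comm]

/-- The semantic consequence of ideal membership. -/
lemma closed_sem {T T' : Tab}
    (hcl : ∀ p ∈ gens T', toMv p ∈ Ideal.span (toMv '' {g | g ∈ gens T}))
    (U : ℕ → Submodule ℚ Mat) {h : Head} {w : List Sym} (hw : (h, w) ∈ T') :
    wordSem ρ U w ≤ setSem ρ U (getT T h) := by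
  classical
  obtain ⟨μ, hμ⟩ := exists_mu ρ U
  rw [hμ w]
  refine sum_le_of_forall _ _ fun w' hw' => ?_
  rw [span_le, Set.singleton_subset_iff, SetLike.mem_coe,
    ← Subspace.forall_mem_dualAnnihilator_apply_eq_zero_iff]
  intro l hl
  rw [Submodule.mem_dualAnnihilator] at hl
  let ν : Var → ℚ := fun v => Sum.elim
    (fun h' => if h' = h then l (Matrix.single v.2.1 v.2.2 1) else 0)
    (fun x => μ x v.2.1 v.2.2) v.1
  have hν : ∀ x i k, ν (Sum.inr x, (i, k)) = μ x i k := fun _ _ _ => rfl
  have key : ∀ (h' : Head) (t' : List Sym'), MvPolynomial.aeval ν (toMv (polyW h' t')) =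
      if h' = h then l (t'.map μ).prod else 0 := by
    intro h' t'
    rw [aeval_toMv, polyW_sem ν μ hν]
    by_cases hh : h' = h
    · rw [if_pos hh, dual_apply]
      simp [ν, hh]
    · rw [if_neg hh]
      simp [ν, hh]
  have hker : Ideal.span (toMv '' {g | g ∈ gens T}) ≤
      RingHom.ker (MvPolynomial.aeval ν : MvPolynomial Var ℤ →ₐ[ℤ] ℚ) := by
    rw [Ideal.span_le]
    rintro _ ⟨g, hg, rfl⟩
    obtain ⟨e, he, t', ht', rfl⟩ := mem_gens.1 hg
    rw [SetLike.mem_coe, RingHom.mem_ker, key]
    split_ifs with hh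
    · apply hl
      have h1 : e.2 ∈ getT T h := mem_getT.2 (by rw [← hh]; exact he)
      have h2 : wordSem ρ U e.2 ≤ setSem ρ U (getT T h) := le_sum_of_mem _ _ h1
      have h3 : span ℚ {(t'.map μ).prod} ≤ wordSem ρ U e.2 := by
        rw [hμ]
        exact le_sum_of_mem (osub chP e.2) (fun w' => span ℚ {(w'.map μ).prod}) ht'
      exact h2 (h3 (mem_span_singleton_self ((t'.map μ).prod)))
    · rfl
  have := hker (hcl _ (mem_gens.2 ⟨(h, w), hw, w', hw', rfl⟩))
  rw [RingHom.mem_ker, key, if_pos rfl] at this
  exact this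

/-- The subspaces attached to a stack. -/
noncomputable def stackSem (G : Grammar) (T : Tab) : List ℕ → ℕ → Submodule ℚ Mat
  | [] => fun A => setSem ρ (fun _ => ⊥) (getT T (none, A))
  | f :: σ => fun A =>
      if some f ∈ idx G then setSem ρ (stackSem G T σ) (getT T (some f, A)) else ⊤

/-- The subspace of a sentential form. -/
noncomputable def formSem (G : Grammar) (T : Tab) (γ : Form) : Submodule ℚ Mat :=
  (γ.map (Sum.elim (fun t => span ℚ {ρ t}) fun p => stackSem ρ G T p.2 p.1)).prod

lemma formSem_append (G : Grammar) (T : Tab) (u v : Form) :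
    formSem ρ G T (u ++ v) = formSem ρ G T u * formSem ρ G T v := by
  simp [formSem]

lemma formSem_single (G : Grammar) (T : Tab) (A : ℕ) (σ : List ℕ) :
    formSem ρ G T [Sum.inr (A, σ)] = stackSem ρ G T σ A := by
  simp [formSem]

lemma formSem_attach (G : Grammar) (T : Tab) (σ : List ℕ) (α : List Sym) :
    formSem ρ G T (attach σ α) = wordSem ρ (stackSem ρ G T σ) α := by
  unfold formSem attach wordSem
  rw [List.map_map]
  congr 1
  apply List.map_congr_left
  intro x _
  cases x <;> simp [symSem]

lemma stackSem_cases (G : Grammar) (T : Tab) (σ : List ℕ) :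
    (∀ A, stackSem ρ G T σ A = ⊤) ∨ ∃ o ∈ idx G, ∃ U,
      stackSem ρ G T σ = fun A => setSem ρ U (getT T (o, A)) := by
  cases σ with
  | nil => exact Or.inr ⟨none, List.mem_cons_self, _, rfl⟩
  | cons f σ =>
    by_cases h : some f ∈ idx G
    · refine Or.inr ⟨some f, h, stackSem ρ G T σ, ?_⟩
      funext A
      simp [stackSem, h]
    · left
      intro A
      simp [stackSem, h]

lemma step_le {G : Grammar} {T : Tab}
    (hcl : ∀ p ∈ gens (phi G T), toMv p ∈ Ideal.span (toMv '' {g | g ∈ gens T}))
    {γ γ' : Form} (h : Step G γ γ') : formSem ρ G T γ' ≤ formSem ρ G T γ := by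
  cases h with
  | plain u v A σ α hr =>
    simp only [formSem_append, formSem_single, formSem_attach]
    gcongr
    rcases stackSem_cases ρ G T σ with h | ⟨o, ho, U, hU⟩
    · rw [h]; exact le_top
    · rw [hU, ← setSem_osub]
      refine sum_le_of_forall _ _ fun w hw => closed_sem ρ hcl U ?_
      simp only [phi, List.mem_append]
      left; left
      simp only [phi1, List.mem_flatMap, List.mem_map]
      exact ⟨o, ho, (A, α), hr, w, hw, rfl⟩
  | push u v A B f σ hr =>
    simp only [formSem_append, formSem_single]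
    gcongr
    have hf : some f ∈ idx G :=
      List.mem_cons_of_mem _ (List.mem_map.2 ⟨(A, B, f), hr, rfl⟩)
    rcases stackSem_cases ρ G T σ with h | ⟨o, ho, U, hU⟩
    · rw [h]; exact le_top
    · simp only [stackSem, if_pos hf]
      rw [hU]
      refine sum_le_of_forall _ _ fun x hx => ?_
      rw [← setSem_osub]
      refine sum_le_of_forall _ _ fun w hw => closed_sem ρ hcl U ?_
      simp only [phi, List.mem_append]
      left; right
      simp only [phi2, List.mem_flatMap, List.mem_map]
      exact ⟨o, ho, (A, B, f), hr, x, hx, w, hw, rfl⟩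
  | pop u v A f σ α hr =>
    simp only [formSem_append, formSem_single, formSem_attach]
    gcongr
    simp only [stackSem]
    split_ifs with hf
    · refine closed_sem ρ hcl _ ?_
      simp only [phi, List.mem_append]
      right
      simp only [phi3, List.mem_map]
      exact ⟨(A, f, α), hr, rfl⟩
    · exact le_top

lemma language_sem {G : Grammar} {T : Tab}
    (hcl : ∀ p ∈ gens (phi G T), toMv p ∈ Ideal.span (toMv '' {g | g ∈ gens T}))
    {w : List ℕ} (hw : w ∈ language G) :
    (w.map ρ).prod ∈ setSem ρ (fun _ => ⊥) (getT T (none, G.1)) := by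
  have key : ∀ γ, Relation.ReflTransGen (Step G) [Sum.inr (G.1, [])] γ →
      formSem ρ G T γ ≤ formSem ρ G T [Sum.inr (G.1, [])] := by
    intro γ h
    induction h with
    | refl => exact le_rfl
    | tail _ hs ih => exact (step_le ρ hcl hs).trans ih
  have h1 := key _ hw
  rw [formSem_single] at h1
  apply h1
  unfold formSem
  rw [List.map_map]
  have : (Sum.elim (fun t => span ℚ {ρ t}) (fun p : ℕ × List ℕ => stackSem ρ G T p.2 p.1) ∘
    Sum.inl) = fun t => span ℚ {ρ t} := rfl
  rw [this, prod_span_singleton]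
  exact mem_span_singleton_self _

end Pool.Agent.P.MP_8ee1cf_lc
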