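import Mathlib
import Pool.Agent.P.MP_8ee1cf_lc.Sound

/-! The tables hold derivable words, and the closure check succeeds for some table. -/

namespace Pool.Agent.P.MP_8ee1cf_lc

/-- Derivations. -/
abbrev Der (G : Grammar) : Form → Form → Prop := Relation.ReflTransGen (Step G)

lemma Step.ctx {G : Grammar} {x y : Form} (h : Step G x y) (p q : Form) :
    Step G (p ++ x ++ q) (p ++ y ++ q) := by
  cases h with
  | plain u v A σ α hr =>
    simpa only [List.append_assoc] using Step.plain (p ++ u) (v ++ q) A σ α hr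
  | push u v A B f σ hr =>
    simpa only [List.append_assoc] using Step.push (p ++ u) (v ++ q) A B f σ hr
  | pop u v A f σ α hr =>
    simpa only [List.append_assoc] using Step.pop (p ++ u) (v ++ q) A f σ α hr

lemma der_ctx {G : Grammar} {x y : Form} (h : Der G x y) (p q : Form) :
    Der G (p ++ x ++ q) (p ++ y ++ q) := by
  induction h with
  | refl => exact Relation.ReflTransGen.refl
  | tail _ hs ih => exact ih.tail (hs.ctx p q)

lemma der_append {G : Grammar} {x y x' y' : Form} (h : Der G x y) (h' : Der G x' y') :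
    Der G (x ++ x') (y ++ y') := by
  have h1 := der_ctx h [] x'
  have h2 := der_ctx h' y []
  simp only [List.nil_append, List.append_nil] at h1 h2
  exact h1.trans h2

/-- The stack named by a head. -/
def stk (o : Option ℕ) (σ : List ℕ) : List ℕ :=
  match o with
  | none => []
  | some f => f :: σ

/-- A table entry is derivable. -/
def Valid (G : Grammar) (e : Head × List Sym) : Prop :=
  (∀ σ, Der G [Sum.inr (e.1.2, stk e.1.1 σ)] (attach σ e.2)) ∧
    (e.1.1 = none → ∀ x ∈ e.2, ∃ t, x = Sum.inl t)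

lemma attach_append (σ : List ℕ) (u v : List Sym) :
    attach σ (u ++ v) = attach σ u ++ attach σ v := by simp [attach]

lemma mem_osub_cons {β γ : Type} {ch : β → List (List γ)} {x : β} {α : List β} {w : List γ} :
    w ∈ osub ch (x :: α) ↔ ∃ u ∈ ch x, ∃ w' ∈ osub ch α, w = u ++ w' := by
  simp only [osub_cons, List.mem_flatMap, List.mem_map]
  constructor
  · rintro ⟨u, hu, w', hw', rfl⟩; exact ⟨u, hu, w', hw', rfl⟩
  · rintro ⟨u, hu, w', hw', rfl⟩; exact ⟨u, hu, w', hw', rfl⟩

lemma osub_letters {β γ : Type} {ch : β → List (List γ)} {α : List β} {w : List γ}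
    (hw : w ∈ osub ch α) : ∀ y ∈ w, ∃ x ∈ α, ∃ u ∈ ch x, y ∈ u := by
  induction α generalizing w with
  | nil =>
    simp only [osub_nil, List.mem_singleton] at hw
    subst hw; simp
  | cons x α ih =>
    obtain ⟨u, hu, w', hw', rfl⟩ := mem_osub_cons.1 hw
    intro y hy
    rcases List.mem_append.1 hy with h | h
    · exact ⟨x, List.mem_cons_self, u, hu, h⟩
    · obtain ⟨x', hx', u', hu', hy'⟩ := ih hw' y h
      exact ⟨x', List.mem_cons_of_mem _ hx', u', hu', hy'⟩

lemma osub_der {G : Grammar} {T : Tab} (hT : ∀ e ∈ T, Valid G e) (o : Option ℕ) (σ : List ℕ)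
    {α w : List Sym} (hw : w ∈ osub (chT T o) α) : Der G (attach (stk o σ) α) (attach σ w) := by
  induction α generalizing w with
  | nil =>
    simp only [osub_nil, List.mem_singleton] at hw
    subst hw; exact Relation.ReflTransGen.refl
  | cons x α ih =>
    obtain ⟨u, hu, w', hw', rfl⟩ := mem_osub_cons.1 hw
    rw [attach_append, ← List.singleton_append, attach_append]
    refine der_append ?_ (ih hw')
    cases x with
    | inl t =>
      simp only [chT, List.mem_singleton] at hu
      subst hu; exact Relation.ReflTransGen.refl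
    | inr B => exact (hT _ (mem_getT.1 hu)).1 σ

lemma osub_term {G : Grammar} {T : Tab} (hT : ∀ e ∈ T, Valid G e)
    {α w : List Sym} (hw : w ∈ osub (chT T none) α) : ∀ x ∈ w, ∃ t, x = Sum.inl t := by
  intro y hy
  obtain ⟨x, -, u, hu, hyu⟩ := osub_letters hw y hy
  cases x with
  | inl t =>
    simp only [chT, List.mem_singleton] at hu
    subst hu
    exact ⟨t, by simpa using hyu⟩
  | inr B => exact (hT _ (mem_getT.1 hu)).2 rfl y hyu

lemma mem_phi {G : Grammar} {T : Tab} {e : Head × List Sym} (he : e ∈ phi G T) :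
    (∃ o ∈ idx G, ∃ r ∈ G.2.1, ∃ w ∈ osub (chT T o) r.2, e = ((o, r.1), w)) ∨
    (∃ o ∈ idx G, ∃ r ∈ G.2.2.1, ∃ x ∈ getT T (some r.2.2, r.2.1),
      ∃ w ∈ osub (chT T o) x, e = ((o, r.1), w)) ∨
    (∃ r ∈ G.2.2.2, e = ((some r.2.1, r.1), r.2.2)) := by
  simp only [phi, List.mem_append, phi1, phi2, phi3, List.mem_flatMap, List.mem_map] at he
  rcases he with (⟨o, ho, r, hr, w, hw, rfl⟩ | ⟨o, ho, r, hr, x, hx, w, hw, rfl⟩) | ⟨r, hr, rfl⟩
  · exact Or.inl ⟨o, ho, r, hr, w, hw, rfl⟩
  · exact Or.inr (Or.inl ⟨o, ho, r, hr, x, hx, w, hw, rfl⟩)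
  · exact Or.inr (Or.inr ⟨r, hr, rfl⟩)

lemma valid_phi {G : Grammar} {T : Tab} (hT : ∀ e ∈ T, Valid G e) : ∀ e ∈ phi G T, Valid G e := by
  intro e he
  rcases mem_phi he with ⟨o, -, r, hr, w, hw, rfl⟩ | ⟨o, -, r, hr, x, hx, w, hw, rfl⟩ |
    ⟨r, hr, rfl⟩
  · refine ⟨fun σ => ?_, fun ho => ?_⟩
    · have := Step.plain (G := G) [] [] r.1 (stk o σ) r.2 hr
      simp only [List.nil_append, List.append_nil] at this
      exact Relation.ReflTransGen.head this (osub_der hT o σ hw)
    · simp only at ho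
      subst ho
      exact osub_term hT hw
  · refine ⟨fun σ => ?_, fun ho => ?_⟩
    · have := Step.push (G := G) [] [] r.1 r.2.1 r.2.2 (stk o σ) hr
      simp only [List.nil_append, List.append_nil] at this
      exact Relation.ReflTransGen.head this
        (((hT _ (mem_getT.1 hx)).1 (stk o σ)).trans (osub_der hT o σ hw))
    · simp only at ho
      subst ho
      exact osub_term hT hw
  · refine ⟨fun σ => ?_, fun ho => by simp at ho⟩
    have := Step.pop (G := G) [] [] r.1 r.2.1 σ r.2.2 hr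
    simp only [List.nil_append, List.append_nil] at this
    exact Relation.ReflTransGen.single this

lemma valid_tab (G : Grammar) (n : ℕ) : ∀ e ∈ tab G n, Valid G e := by
  induction n with
  | zero => simp [tab]
  | succ n ih =>
    intro e he
    rw [tab_succ, List.mem_append] at he
    exact he.elim (ih e) (valid_phi ih e)

/-- The heads that can occur. -/
def heads (G : Grammar) : List Head :=
  ((idx G).flatMap fun o => G.2.1.map fun r => (o, r.1)) ++
    ((idx G).flatMap fun o => G.2.2.1.map fun r => (o, r.1)) ++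
      G.2.2.2.map fun r => (some r.2.1, r.1)

/-- The letters that can occur. -/
def lets (G : Grammar) : List Sym := (G.2.1.flatMap fun r => r.2) ++ G.2.2.2.flatMap fun r => r.2.2

/-- A table entry uses only the finitely many heads and letters. -/
def Good (G : Grammar) (e : Head × List Sym) : Prop := e.1 ∈ heads G ∧ ∀ x ∈ e.2, x ∈ lets G

lemma osub_good {G : Grammar} {T : Tab} (hT : ∀ e ∈ T, Good G e) {o : Option ℕ}
    {α w : List Sym} (hα : ∀ x ∈ α, x ∈ lets G) (hw : w ∈ osub (chT T o) α) :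
    ∀ x ∈ w, x ∈ lets G := by
  intro y hy
  obtain ⟨x, hx, u, hu, hyu⟩ := osub_letters hw y hy
  cases x with
  | inl t =>
    simp only [chT, List.mem_singleton] at hu
    subst hu
    rw [List.mem_singleton.1 hyu]
    exact hα _ hx
  | inr B => exact (hT _ (mem_getT.1 hu)).2 y hyu

lemma good_phi {G : Grammar} {T : Tab} (hT : ∀ e ∈ T, Good G e) : ∀ e ∈ phi G T, Good G e := by
  intro e he
  rcases mem_phi he with ⟨o, ho, r, hr, w, hw, rfl⟩ | ⟨o, ho, r, hr, x, hx, w, hw, rfl⟩ |
    ⟨r, hr, rfl⟩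
  · refine ⟨?_, osub_good hT (fun x hx => ?_) hw⟩
    · simp only [heads, List.mem_append, List.mem_flatMap, List.mem_map]
      exact Or.inl (Or.inl ⟨o, ho, r, hr, rfl⟩)
    · simp only [lets, List.mem_append, List.mem_flatMap]
      exact Or.inl ⟨r, hr, hx⟩
  · refine ⟨?_, osub_good hT (hT _ (mem_getT.1 hx)).2 hw⟩
    simp only [heads, List.mem_append, List.mem_flatMap, List.mem_map]
    exact Or.inl (Or.inr ⟨o, ho, r, hr, rfl⟩)
  · refine ⟨?_, fun x hx => ?_⟩
    · simp only [heads, List.mem_append, List.mem_flatMap, List.mem_map]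
      exact Or.inr ⟨r, hr, rfl⟩
    · simp only [lets, List.mem_append, List.mem_flatMap]
      exact Or.inr ⟨r, hr, hx⟩

lemma good_tab (G : Grammar) (n : ℕ) : ∀ e ∈ tab G n, Good G e := by
  induction n with
  | zero => simp [tab]
  | succ n ih =>
    intro e he
    rw [tab_succ, List.mem_append] at he
    exact he.elim (ih e) (good_phi ih e)

/-- The variables that can occur. -/
def vars (G : Grammar) : Set Var :=
  (Sum.inl '' {h | h ∈ heads G} ∪ Sum.inr '' ({x | x ∈ lets G} ×ˢ Set.univ)) ×ˢ Set.univ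

lemma vars_finite (G : Grammar) : (vars G).Finite :=
  (((List.finite_toSet _).image _).union
    (((List.finite_toSet _).prod Set.finite_univ).image _)).prod Set.finite_univ

lemma col_vars {w : List Sym'} {j : Fin 3} :
    ∀ im ∈ col w j, ∀ v ∈ im.2, ∃ x ∈ w, v.1 = Sum.inr x := by
  induction w with
  | nil => simp [col]
  | cons x w ih =>
    have hc : col (x :: w) j = (col w j).flatMap fun km => (List.finRange 3).map fun i =>
      (i, (Sum.inr x, (i, km.1)) :: km.2) := rfl
    intro im him v hv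
    rw [hc] at him
    simp only [List.mem_flatMap, List.mem_map] at him
    obtain ⟨km, hkm, i, -, rfl⟩ := him
    rcases List.mem_cons.1 hv with rfl | h
    · exact ⟨x, List.mem_cons_self, rfl⟩
    · obtain ⟨y, hy, hh⟩ := ih km hkm v h
      exact ⟨y, List.mem_cons_of_mem _ hy, hh⟩

lemma chP_fst {x : Sym} {u : List Sym'} (hu : u ∈ chP x) : ∀ y ∈ u, y.1 = x := by
  cases x with
  | inl t =>
    simp only [chP, List.mem_singleton] at hu
    subst hu; simp
  | inr B =>
    simp only [chP, List.mem_map] at hu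
    obtain ⟨ij, -, rfl⟩ := hu
    simp

lemma toMv_mem_adjoin {V : Type} (V₀ : Set V) (p : List (List V)) (hp : ∀ m ∈ p, ∀ v ∈ m, v ∈ V₀) :
    toMv p ∈ Algebra.adjoin ℤ (MvPolynomial.X '' V₀ : Set (MvPolynomial V ℤ)) := by
  unfold toMv evalP
  refine list_sum_mem ?_
  intro a ha
  obtain ⟨m, hm, rfl⟩ := List.mem_map.1 ha
  refine list_prod_mem ?_
  intro b hb
  obtain ⟨v, hv, rfl⟩ := List.mem_map.1 hb
  exact Algebra.subset_adjoin ⟨v, hp m hm v hv, rfl⟩

lemma gens_mem_adjoin {G : Grammar} {T : Tab} (hT : ∀ e ∈ T, Good G e) {p : List (List Var)}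
    (hp : p ∈ gens T) :
    toMv p ∈ Algebra.adjoin ℤ (MvPolynomial.X '' vars G : Set (MvPolynomial Var ℤ)) := by
  obtain ⟨e, he, w', hw', rfl⟩ := mem_gens.1 hp
  refine toMv_mem_adjoin _ _ fun m hm v hv => ⟨?_, Set.mem_univ _⟩
  simp only [polyW, List.mem_flatMap, List.mem_map] at hm
  obtain ⟨j, -, im, him, rfl⟩ := hm
  rcases List.mem_cons.1 hv with rfl | h
  · exact Or.inl ⟨e.1, (hT e he).1, rfl⟩
  · obtain ⟨y, hy, hh⟩ := col_vars im him v h
    obtain ⟨x, hx, u, hu, hyu⟩ := osub_letters hw' y hy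
    refine Or.inr ⟨y, ⟨?_, Set.mem_univ _⟩, hh.symm⟩
    change y.1 ∈ lets G
    rw [chP_fst hu y hyu]
    exact (hT e he).2 x hx

lemma gens_mono {T T' : Tab} (h : ∀ e ∈ T, e ∈ T') {p : List (List Var)} (hp : p ∈ gens T) :
    p ∈ gens T' := by
  obtain ⟨e, he, w', hw', rfl⟩ := mem_gens.1 hp
  exact mem_gens.2 ⟨e, h e he, w', hw', rfl⟩

lemma exists_list_of_forall {α β : Type} {R : α → β → Prop} (l : List α)
    (h : ∀ a ∈ l, ∃ b, R a b) : ∃ C : List β, ∀ a ∈ l, ∃ b ∈ C, R a b := by
  induction l with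
  | nil => exact ⟨[], by simp⟩
  | cons a l ih =>
    obtain ⟨C, hC⟩ := ih fun x hx => h x (List.mem_cons_of_mem _ hx)
    obtain ⟨b, hb⟩ := h a List.mem_cons_self
    refine ⟨b :: C, fun x hx => ?_⟩
    rcases List.mem_cons.1 hx with rfl | hx
    · exact ⟨b, List.mem_cons_self, hb⟩
    · obtain ⟨c, hc, hr⟩ := hC x hx
      exact ⟨c, List.mem_cons_of_mem _ hc, hr⟩

lemma exists_check (G : Grammar) : ∃ (n : ℕ) (C : List CertT), Check G (tab G n) C := by
  obtain ⟨n, hn⟩ := exists_stable (vars G) (vars_finite G)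
    (fun n => toMv '' {g | g ∈ gens (tab G n)})
    (fun n => Set.image_mono fun g hg => gens_mono
      (fun e he => by rw [tab_succ]; exact List.mem_append_left _ he) hg)
    (by
      rintro n _ ⟨g, hg, rfl⟩
      exact gens_mem_adjoin (good_tab G n) hg)
  refine ⟨n, exists_list_of_forall _ fun p hp => exists_cert (hn ⟨p, ?_, rfl⟩)⟩
  exact gens_mono (fun e he => by rw [tab_succ]; exact List.mem_append_right _ he) hp

end Pool.Agent.P.MP_8ee1cf_lc
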