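import Mathlib
import Pool.Agent.P.MP_8ee1cf_lc.Valid
import Pool.Agent.P.MP_8ee1cf_lc.Prim

/-! Effective test sets for indexed languages. -/

namespace Pool.Agent.P.MP_8ee1cf_lc

open Submodule

/-- An injective numerical value of words. -/
def wval : List ℕ → ℕ
  | [] => 0
  | n :: l => 2 ^ n * (2 * wval l + 1)

/-- The scale of a word. -/
def wsc : List ℕ → ℕ
  | [] => 1
  | n :: l => 2 ^ (n + 1) * wsc l

lemma wsc_append (u v : List ℕ) : wsc (u ++ v) = wsc u * wsc v := by
  induction u with
  | nil => simp [wsc]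
  | cons a u ih => simp [wsc, ih, mul_assoc]

lemma wval_append (u v : List ℕ) : wval (u ++ v) = wsc u * wval v + wval u := by
  induction u with
  | nil => simp [wsc, wval]
  | cons a u ih => simp only [List.cons_append, wval, wsc, ih]; ring

lemma two_pow_odd_inj : ∀ a b x y : ℕ, 2 ^ a * (2 * x + 1) = 2 ^ b * (2 * y + 1) → a = b ∧ x = y
  | 0, 0, x, y, h => by omega
  | 0, b + 1, x, y, h => by
    rw [pow_succ, mul_comm (2 ^ b) 2, mul_assoc] at h; omega
  | a + 1, 0, x, y, h => by
    rw [pow_succ, mul_comm (2 ^ a) 2, mul_assoc] at h; omega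
  | a + 1, b + 1, x, y, h => by
    rw [pow_succ, pow_succ, mul_comm (2 ^ a) 2, mul_comm (2 ^ b) 2, mul_assoc, mul_assoc] at h
    have := two_pow_odd_inj a b x y (by omega)
    omega

lemma wval_inj : ∀ u v : List ℕ, wval u = wval v → u = v
  | [], [], _ => rfl
  | [], b :: v, h => by
    have : 0 < 2 ^ b * (2 * wval v + 1) := by positivity
    simp only [wval] at h; omega
  | a :: u, [], h => by
    have : 0 < 2 ^ a * (2 * wval u + 1) := by positivity
    simp only [wval] at h; omega
  | a :: u, b :: v, h => by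
    obtain ⟨h1, h2⟩ := two_pow_odd_inj _ _ _ _ h
    rw [h1, wval_inj u v h2]

/-- The matrix of a pair of words. -/
def pairMat (u u' : List ℕ) : Mat :=
  !![(wsc u : ℚ), 0, wval u; 0, wsc u', wval u'; 0, 0, 1]

lemma pairMat_append (u u' v v' : List ℕ) :
    pairMat (u ++ v) (u' ++ v') = pairMat u u' * pairMat v v' := by
  simp [pairMat, wsc_append, wval_append]

lemma pairMat_nil : pairMat [] [] = 1 := by
  rw [Matrix.one_fin_three]
  simp [pairMat, wsc, wval]

lemma prod_pairMat (g h : ℕ → List ℕ) (w : List ℕ) :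
    (w.map fun t => pairMat (g t) (h t)).prod = pairMat (w.flatMap g) (w.flatMap h) := by
  induction w with
  | nil => simp [pairMat_nil]
  | cons a w ih => simp [ih, pairMat_append]

/-- The functional comparing the two values. -/
def cmp : Mat →ₗ[ℚ] ℚ where
  toFun M := M 0 2 - M 1 2
  map_add' M N := by simp; ring
  map_smul' c M := by simp; ring

lemma cmp_pairMat (u u' : List ℕ) : cmp (pairMat u u') = 0 ↔ u = u' := by
  simp only [cmp, pairMat, LinearMap.coe_mk, AddHom.coe_mk, sub_eq_zero]
  constructor
  · intro h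
    apply wval_inj
    simpa using h
  · rintro rfl
    simp

lemma mem_outp {G : Grammar} {n : ℕ} {w : List ℕ} :
    w ∈ outp G (tab G n) ↔ w.map Sum.inl ∈ getT (tab G n) (none, G.1) := by
  simp only [outp, List.mem_map]
  constructor
  · rintro ⟨x, hx, rfl⟩
    have hv := (valid_tab G n _ (mem_getT.1 hx)).2 rfl
    rw [List.map_map]
    convert hx
    conv_rhs => rw [← List.map_id x]
    apply List.map_congr_left
    intro y hy
    obtain ⟨t, rfl⟩ := hv y hy
    rfl
  · intro h
    exact ⟨_, h, by simp [Function.comp_def]⟩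

lemma outp_subset {G : Grammar} {n : ℕ} {w : List ℕ} (hw : w ∈ outp G (tab G n)) :
    w ∈ language G := by
  have := (valid_tab G n _ (mem_getT.1 (mem_outp.1 hw))).1 []
  simpa [attach, stk, language, Function.comp_def] using this

lemma nat_test {G : Grammar} {n : ℕ} {C : List CertT} (hC : Check G (tab G n) C)
    (g h : ℕ → List ℕ) (hF : ∀ w ∈ outp G (tab G n), w.flatMap g = w.flatMap h)
    {w : List ℕ} (hw : w ∈ language G) : w.flatMap g = w.flatMap h := by
  set ρ : ℕ → Mat := fun t => pairMat (g t) (h t) with hρ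
  have hcl : ∀ p ∈ gens (phi G (tab G n)),
      toMv p ∈ Ideal.span (toMv '' {g | g ∈ gens (tab G n)}) := by
    intro p hp
    obtain ⟨c, -, hc⟩ := hC p hp
    exact mem_span_of_cert hc
  have h1 := language_sem ρ hcl hw
  have h2 : setSem ρ (fun _ => ⊥) (getT (tab G n) (none, G.1)) ≤ LinearMap.ker cmp := by
    refine sum_le_of_forall _ _ fun x hx => ?_
    have hv := (valid_tab G n _ (mem_getT.1 hx)).2 rfl
    obtain ⟨y, rfl⟩ : ∃ y : List ℕ, x = y.map Sum.inl := by
      refine ⟨x.map (Sum.elim id id), ?_⟩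
      rw [List.map_map]
      conv_lhs => rw [← List.map_id x]
      apply List.map_congr_left
      intro z hz
      obtain ⟨t, rfl⟩ := hv z hz
      rfl
    unfold wordSem
    rw [List.map_map]
    have : (symSem ρ (fun _ => ⊥) ∘ Sum.inl) = fun t => span ℚ {ρ t} := rfl
    rw [this, prod_span_singleton, span_le, Set.singleton_subset_iff, SetLike.mem_coe,
      LinearMap.mem_ker, hρ, prod_pairMat, cmp_pairMat]
    exact hF y (mem_outp.2 hx)
  have h3 := h2 h1
  rwa [LinearMap.mem_ker, hρ, prod_pairMat, cmp_pairMat] at h3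

lemma toList_hom {Δ : Type} (g : FreeMonoid ℕ →* FreeMonoid Δ) (w : List ℕ) :
    FreeMonoid.toList (g (FreeMonoid.ofList w)) =
      w.flatMap fun t => FreeMonoid.toList (g (FreeMonoid.of t)) := by
  induction w with
  | nil => simp
  | cons a w ih => rw [FreeMonoid.ofList_cons, map_mul, FreeMonoid.toList_mul, ih]; simp

lemma isTestSet_of_check {G : Grammar} {n : ℕ} {C : List CertT} (hC : Check G (tab G n) C) :
    IsTestSet (outp G (tab G n)) (language G) := by
  classical
  refine ⟨fun w hw => outp_subset hw, fun Δ g h => ⟨fun H w hw => H w (outp_subset hw), ?_⟩⟩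
  intro hF w hw
  set D : List Δ := FreeMonoid.toList (g (FreeMonoid.ofList w)) ++
    FreeMonoid.toList (h (FreeMonoid.ofList w)) with hD
  set c : Δ → ℕ := fun d => D.idxOf d with hc
  have hmap : ∀ (k : FreeMonoid ℕ →* FreeMonoid Δ) (x : List ℕ),
      x.flatMap (fun t => (FreeMonoid.toList (k (FreeMonoid.of t))).map c) =
        (FreeMonoid.toList (k (FreeMonoid.ofList x))).map c := by
    intro k x
    rw [toList_hom, List.map_flatMap]
  have := nat_test hC (fun t => (FreeMonoid.toList (g (FreeMonoid.of t))).map c)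
    (fun t => (FreeMonoid.toList (h (FreeMonoid.of t))).map c)
    (fun x hx => by rw [hmap, hmap, hF x hx]) hw
  rw [hmap, hmap] at this
  apply FreeMonoid.toList.injective
  have hinj : ∀ a ∈ D, ∀ b ∈ D, c a = c b → a = b := fun a ha b _ hab =>
    (List.idxOf_inj ha).1 hab
  have gen : ∀ l l' : List Δ, (∀ a ∈ l, a ∈ D) → (∀ a ∈ l', a ∈ D) → l.map c = l'.map c →
      l = l' := by
    intro l
    induction l with
    | nil => intro l' _ _ hh; exact (List.map_eq_nil_iff.1 hh.symm).symm
    | cons a l ih =>
      intro l' h1 h2 hh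
      cases l' with
      | nil => simp at hh
      | cons b l' =>
        simp only [List.map_cons, List.cons.injEq] at hh
        rw [hinj a (h1 a List.mem_cons_self) b (h2 b List.mem_cons_self) hh.1,
          ih l' (fun x hx => h1 x (List.mem_cons_of_mem _ hx))
            (fun x hx => h2 x (List.mem_cons_of_mem _ hx)) hh.2]
  exact gen _ _ (fun a ha => List.mem_append_left _ ha) (fun a ha => List.mem_append_right _ ha)
    this

lemma search_dom (G : Grammar) : (Nat.rfindOpt (search G)).Dom := by
  obtain ⟨n, C, hC⟩ := exists_check G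
  refine Nat.rfindOpt_dom.2 ⟨Encodable.encode (n, C), outp G (tab G n), ?_⟩
  simp [search, hC]

theorem effective : ∃ f : Grammar → List (List ℕ), Computable f ∧
    ∀ G : Grammar, IsTestSet (f G) (language G) := by
  refine ⟨fun G => (Nat.rfindOpt (search G)).get (search_dom G), ?_, fun G => ?_⟩
  · exact (Partrec.rfindOpt prim_search.to_comp).of_eq_tot fun G => Part.get_mem _
  · obtain ⟨k, hk⟩ := Nat.rfindOpt_spec (Part.get_mem (search_dom G))
    simp only [search, Option.mem_def, Option.bind_eq_some_iff] at hk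
    obtain ⟨nC, -, h⟩ := hk
    split_ifs at h with hC
    rw [Option.some.injEq] at h
    beta_reduce
    rw [← h]
    exact isTestSet_of_check hC

end Pool.Agent.P.MP_8ee1cf_lc
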